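import Pool.Agent.H24.Ab.Basic
import Pool.Agent.H6.CommonZero

/-!
# Fibre dimension count

If `r` is nonnegative on all degrees and extremal at `x`, and an ample class `b` has `r b = 0`,
then at most one more coordinate than equation has positive `r`-degree.
-/

set_option autoImplicit false

namespace Pool.Agent.H24.Ab

open MvPolynomial

variable {I J M : Type} [AddCommGroup M] {D : I → M} {θ : M}
  {β : J → M} {F : J → MvPolynomial I ℂ} {X : Set (I → ℂ)}

/-- Polynomials of degree `b` with `r b = 0` only depend on the coordinates with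
`r (D i) = 0`. -/
lemma eval_congr_of_zero {r : M →+ ℤ} (hD : ∀ i, 0 ≤ r (D i)) {G : MvPolynomial I ℂ} {b : M}
    (hG : IsWeightedHomogeneous D G b) (hb : r b = 0) {y y' : I → ℂ}
    (h : ∀ i, r (D i) = 0 → y i = y' i) : eval y G = eval y' G := by
  rw [eval_eq, eval_eq]
  refine Finset.sum_congr rfl fun e he => ?_
  have hw : Finsupp.weight D e = b := hG (mem_support_iff.mp he)
  congr 1
  refine Finset.prod_congr rfl fun i hi => ?_
  rw [h i (zero_of_weight_zero (fun i _ => hD i) (by rw [hw]; exact hb) i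
    (Finsupp.mem_support_iff.mp hi))]

/-- A class `c` such that every functional vanishing on `L` vanishes at `c` has a positive
multiple in `L`. -/
lemma exists_nsmul_mem (hfin : Module.Finite ℤ M)
    (L : AddSubgroup M) (hL : ∀ ν : M →+ ℤ, (∀ m ∈ L, ν m = 0) → ν = 0) (c : M) :
    ∃ m : ℕ, 1 ≤ m ∧ m • c ∈ L := by
  by_contra hcon
  push Not at hcon
  let L' : Submodule ℤ M := AddSubgroup.toIntSubmodule L
  let N := M ⧸ L'
  let T := Submodule.torsion ℤ N
  have hfree : Module.Free ℤ (N ⧸ T) := inferInstance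
  have hc : T.mkQ (L'.mkQ c) ≠ 0 := by
    intro h0
    rw [Submodule.mkQ_apply, Submodule.Quotient.mk_eq_zero] at h0
    rw [Submodule.mem_torsion_iff] at h0
    obtain ⟨a, ha⟩ := h0
    have ha0 : (a : ℤ) ≠ 0 := nonZeroDivisors.coe_ne_zero a
    have h1 : (a : ℤ) • c ∈ L := by
      have : L'.mkQ ((a : ℤ) • c) = 0 := by
        rw [map_smul]
        exact ha
      rw [Submodule.mkQ_apply, Submodule.Quotient.mk_eq_zero] at this
      exact this
    refine hcon (a : ℤ).natAbs (Nat.one_le_iff_ne_zero.mpr (Int.natAbs_ne_zero.mpr ha0)) ?_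
    rcases Int.natAbs_eq (a : ℤ) with h2 | h2
    · rw [← natCast_zsmul, ← h2]
      exact h1
    · have h3 : ((a : ℤ).natAbs : ℤ) • c = -((a : ℤ) • c) := by
        rw [← neg_smul]
        congr 1
        omega
      rw [← natCast_zsmul, h3]
      exact L.neg_mem h1
  have hdual : ¬ ∀ φ : Module.Dual ℤ (N ⧸ T), φ (T.mkQ (L'.mkQ c)) = 0 := by
    rw [Module.forall_dual_apply_eq_zero_iff]
    exact hc
  push Not at hdual
  obtain ⟨φ, hφ⟩ := hdual
  have h4 := hL ((φ.comp (T.mkQ.comp L'.mkQ)).toAddMonoidHom) (by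
    intro m hm
    have : L'.mkQ m = 0 := by
      rw [Submodule.mkQ_apply, Submodule.Quotient.mk_eq_zero]
      exact hm
    change φ (T.mkQ (L'.mkQ m)) = 0
    rw [this, map_zero, map_zero])
  apply hφ
  have h5 := DFunLike.congr_fun h4 c
  exact h5

/-- Fewer equations than variables: there are infinitely many common zeros near a given one. -/
lemma infinite_common_zero {σ ι : Type} [Finite σ] [Finite ι] (H : ι → MvPolynomial σ ℂ)
    (p : σ → ℂ) (hp : ∀ j, eval p (H j) = 0) (h : MvPolynomial σ ℂ) (hh : eval p h ≠ 0)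
    (hcard : Nat.card ι < Nat.card σ) :
    {y : σ → ℂ | (∀ j, eval y (H j) = 0) ∧ eval y h ≠ 0}.Infinite := by
  classical
  intro hfin
  set S := {y : σ → ℂ | (∀ j, eval y (H j) = 0) ∧ eval y h ≠ 0} with hS
  -- a polynomial vanishing at all points of `S` except `p`
  have hg : ∃ g : MvPolynomial σ ℂ, eval p g ≠ 0 ∧ ∀ y ∈ S, y ≠ p → eval y g = 0 := by
    have hsep : ∀ y : σ → ℂ, y ≠ p → ∃ i, p i ≠ y i := by
      intro y hy
      by_contra hc
      push Not at hc
      exact hy (funext fun i => (hc i).symm)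
    choose ix hix using hsep
    refine ⟨∏ y ∈ hfin.toFinset, (if hy : y ≠ p then MvPolynomial.X (ix y hy) -
      MvPolynomial.C (y (ix y hy)) else 1), ?_, ?_⟩
    · rw [map_prod]
      refine Finset.prod_ne_zero_iff.mpr fun y _ => ?_
      by_cases hy : y ≠ p
      · rw [dif_pos hy]
        simp only [map_sub, eval_X, eval_C]
        exact sub_ne_zero.mpr (hix y hy)
      · rw [dif_neg hy]
        simp
    · intro y hy hyp
      rw [map_prod]
      refine Finset.prod_eq_zero (i := y) (hfin.mem_toFinset.mpr hy) ?_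
      rw [dif_pos hyp]
      simp
  obtain ⟨g, hgp, hg⟩ := hg
  -- substitution
  set c : ℂ := (eval p h * eval p g)⁻¹ with hc
  have hhg : eval p h * eval p g ≠ 0 := mul_ne_zero hh hgp
  let sub : MvPolynomial σ ℂ →ₐ[ℂ] MvPolynomial (Option σ) ℂ :=
    aeval (fun i => MvPolynomial.X (some i) + MvPolynomial.C (p i))
  have hsub : ∀ (G : MvPolynomial σ ℂ) (w : Option σ → ℂ),
      eval w (sub G) = eval (fun i => w (some i) + p i) G := by
    intro G w
    induction G using MvPolynomial.induction_on with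
    | C a => simp [sub]
    | add P Q h1 h2 => rw [map_add, map_add, map_add, h1, h2]
    | mul_X P i h1 =>
      rw [map_mul, map_mul, map_mul, h1]
      simp [sub]
  let H' : Option ι → MvPolynomial (Option σ) ℂ := fun o =>
    match o with
    | none => (MvPolynomial.X none + MvPolynomial.C c) * sub (h * g) - 1
    | some j => sub (H j)
  have hz : ∀ j, eval (0 : Option σ → ℂ) (H' j) = 0 := by
    intro j
    have hp0 : (fun i => (0 : Option σ → ℂ) (some i) + p i) = p := by
      funext i
      simp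
    cases j with
    | none =>
      change eval (0 : Option σ → ℂ)
        ((MvPolynomial.X none + MvPolynomial.C c) * sub (h * g) - 1) = 0
      rw [map_sub, map_mul, hsub, hp0, map_mul, map_add, eval_X, eval_C, map_one, Pi.zero_apply,
        zero_add, hc, inv_mul_cancel₀ hhg, sub_self]
    | some j =>
      change eval (0 : Option σ → ℂ) (sub (H j)) = 0
      rw [hsub, hp0, hp j]
  obtain ⟨w, hw0, hw⟩ := Pool.Agent.H6.exists_ne_zero_common_zero H' hz (by
    have := Fintype.ofFinite σ
    have := Fintype.ofFinite ι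
    rw [Nat.card_eq_fintype_card, Nat.card_eq_fintype_card, Fintype.card_option,
      Fintype.card_option]
    rw [Nat.card_eq_fintype_card, Nat.card_eq_fintype_card] at hcard
    omega)
  set y : σ → ℂ := fun i => w (some i) + p i with hy
  have hN := hw none
  change eval w ((MvPolynomial.X none + MvPolynomial.C c) * sub (h * g) - 1) = 0 at hN
  rw [map_sub, map_mul, hsub, map_mul, map_add, eval_X, eval_C, map_one] at hN
  have hN' : (w none + c) * (eval y h * eval y g) = 1 := sub_eq_zero.mp hN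
  have hne : eval y h * eval y g ≠ 0 := by
    intro h0
    rw [h0, mul_zero] at hN'
    exact zero_ne_one hN'
  have hyS : y ∈ S := by
    refine ⟨fun j => ?_, left_ne_zero_of_mul hne⟩
    have := hw (some j)
    change eval w (sub (H j)) = 0 at this
    rw [hsub] at this
    exact this
  have hyp : y = p := by
    by_contra hne'
    exact right_ne_zero_of_mul hne (hg y hyS hne')
  apply hw0
  funext o
  cases o with
  | none =>
    rw [hyp] at hN'
    have h1 : w none + c = c := by
      rw [hc]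
      exact eq_inv_of_mul_eq_one_left hN'
    rw [Pi.zero_apply]
    linear_combination h1
  | some i =>
    have := congrFun hyp i
    rw [Pi.zero_apply]
    simp only [hy] at this
    linear_combination this

lemma finite_pow_eq {N : ℕ} (hN : 1 ≤ N) (a : ℂ) : {z : ℂ | z ^ N = a}.Finite := by
  classical
  refine (Polynomial.nthRoots N a).toFinset.finite_toSet.subset fun z hz => ?_
  rw [Finset.mem_coe, Multiset.mem_toFinset, Polynomial.mem_nthRoots (by omega)]
  exact hz

/-- One orbit contains only finitely many points with given coordinates of `r`-degree zero and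
one given nonzero coordinate of positive `r`-degree. -/
lemma finite_in_orbit [Finite I] (hm : Model D θ β F X) {r : M →+ ℤ} {x : I → ℂ}
    (hext : Extremal D x r) {i₀ : I} (hi₀ : 0 < r (D i₀)) (hxi₀ : x i₀ ≠ 0) (z : I → ℂ) :
    {y : I → ℂ | (∀ i, r (D i) = 0 → y i = x i) ∧ y i₀ = x i₀ ∧ SameOrbit D z y}.Finite := by
  classical
  set S := {y : I → ℂ | (∀ i, r (D i) = 0 → y i = x i) ∧ y i₀ = x i₀ ∧ SameOrbit D z y} with hS
  rcases S.eq_empty_or_nonempty with h0 | ⟨y₁, hy₁⟩
  · rw [h0]
    exact Set.finite_empty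
  let L : AddSubgroup M := AddSubgroup.closure
    (D '' ({i | x i ≠ 0 ∧ r (D i) = 0} ∪ {i₀}))
  have hL : ∀ ν : M →+ ℤ, (∀ m ∈ L, ν m = 0) → ν = 0 := by
    intro ν hν
    obtain ⟨c, hc⟩ := hext ν (fun i hi hri =>
      hν _ (AddSubgroup.subset_closure ⟨i, Or.inl ⟨hi, hri⟩, rfl⟩))
    have h1 : ν (D i₀) = 0 := hν _ (AddSubgroup.subset_closure ⟨i₀, Or.inr rfl, rfl⟩)
    rw [hc, AddMonoidHom.coe_smul, Pi.smul_apply, smul_eq_mul] at h1
    rcases mul_eq_zero.mp h1 with h2 | h2
    · rw [hc, h2, zero_smul]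
    · omega
  have h1 : ∀ i : I, ∃ m : ℕ, 1 ≤ m ∧ m • D i ∈ L := fun i => exists_nsmul_mem hm.fg L hL (D i)
  choose m hm1 hmL using h1
  refine (Set.Finite.pi fun i : I => finite_pow_eq (hm1 i) (y₁ i ^ m i)).subset ?_
  intro y hy i _
  change y i ^ m i = y₁ i ^ m i
  obtain ⟨g, hg⟩ := hy₁.2.2.symm.trans hy.2.2
  have hgL : ∀ c ∈ L, g (Multiplicative.ofAdd c) = 1 := by
    intro c hc
    induction hc using AddSubgroup.closure_induction with
    | mem c hc =>
      obtain ⟨i', hi', rfl⟩ := hc
      have h2 : y i' = y₁ i' ∧ y₁ i' ≠ 0 := by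
        rcases hi' with ⟨h3, h4⟩ | h3
        · rw [hy.1 i' h4, hy₁.1 i' h4]
          exact ⟨rfl, h3⟩
        · rw [Set.mem_singleton_iff] at h3
          subst h3
          rw [hy.2.1, hy₁.2.1]
          exact ⟨rfl, hxi₀⟩
      have h3 := hg i'
      rw [h2.1] at h3
      have h4 : ((g (Multiplicative.ofAdd (D i')) : ℂˣ) : ℂ) = 1 := by
        have h5 : ((g (Multiplicative.ofAdd (D i')) : ℂˣ) : ℂ) * y₁ i' = 1 * y₁ i' := by
          rw [one_mul]
          exact h3.symm
        exact mul_right_cancel₀ h2.2 h5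
      exact Units.ext h4
    | zero =>
      rw [ofAdd_zero, map_one]
    | add a b _ _ h2 h3 =>
      rw [ofAdd_add, map_mul, h2, h3, one_mul]
    | neg a _ h2 =>
      rw [ofAdd_neg, map_inv, h2, inv_one]
  rw [hg i, mul_pow]
  have h2 := hgL _ (hmL i)
  rw [ofAdd_nsmul, map_pow] at h2
  have h3 : ((g (Multiplicative.ofAdd (D i)) : ℂˣ) : ℂ) ^ m i = 1 := by
    rw [← Units.val_pow_eq_pow_val, h2, Units.val_one]
  rw [h3, one_mul]

/-- Substitution of the coordinates of `x` for the variables outside `p`. -/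
lemma exists_subst {I : Type} (p : I → Prop) [DecidablePred p] (x : I → ℂ) :
    ∃ sub : MvPolynomial I ℂ → MvPolynomial {i // p i} ℂ,
      ∀ (G : MvPolynomial I ℂ) (z : {i // p i} → ℂ),
        eval z (sub G) = eval (fun i => if h : p i then z ⟨i, h⟩ else x i) G := by
  refine ⟨fun G => aeval (fun i => if h : p i then
    (MvPolynomial.X ⟨i, h⟩ : MvPolynomial {i // p i} ℂ) else MvPolynomial.C (x i)) G, ?_⟩
  intro G z
  beta_reduce
  induction G using MvPolynomial.induction_on with
  | C a => simp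
  | add P Q h1 h2 => rw [map_add, map_add, map_add, h1, h2]
  | mul_X P i h1 =>
    rw [map_mul, map_mul, map_mul, h1, aeval_X, eval_X]
    by_cases h2 : p i
    · rw [dif_pos h2, dif_pos h2, eval_X]
    · rw [dif_neg h2, dif_neg h2, eval_C]

/-- S12 -/
theorem card_pos_le [Fintype I] [Fintype J] (hm : Model D θ β F X) {r : M →+ ℤ} {x : I → ℂ}
    (hx : x ∈ X) (hD : ∀ i, 0 ≤ r (D i)) (hβ : ∀ j, 0 ≤ r (β j)) (h0 : r ≠ 0)
    (hext : Extremal D x r)
    (hfin : ∃ E : Set (I → ℂ), E.Finite ∧ ∀ y ∈ X, (∀ i, r (D i) = 0 → y i = x i) →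
      ∃ z ∈ E, SameOrbit D z y) :
    Nat.card {i // 0 < r (D i)} ≤ Nat.card {j // 0 < r (β j)} + 1 := by
  classical
  by_contra hcon
  push Not at hcon
  -- a nonzero coordinate of positive degree
  obtain ⟨i₀, hxi₀, hi₀⟩ : ∃ i, x i ≠ 0 ∧ 0 < r (D i) := by
    by_contra hc
    push Not at hc
    exact h0 (hm.eq_zero hx fun i hi => le_antisymm (hc i hi) (hD i))
  obtain ⟨p, h, hh, hxh, hop⟩ := hm.opn x hx
  -- substitution of the coordinates of degree zero
  let ext : ({i // 0 < r (D i)} → ℂ) → (I → ℂ) := fun z i =>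
    if h : 0 < r (D i) then z ⟨i, h⟩ else x i
  obtain ⟨sub, hsub⟩ := exists_subst (fun i => 0 < r (D i)) x
  have hinj : Function.Injective ext := by
    intro z z' hz
    funext i
    have := congrFun hz i.1
    simp only [ext, dif_pos i.2] at this
    exact this
  let z₀ : {i // 0 < r (D i)} → ℂ := fun i => x i.1
  have hz₀ : ext z₀ = x := by
    funext i
    simp only [ext, z₀]
    split_ifs <;> rfl
  have hH : ∃ H : Option {j // 0 < r (β j)} → MvPolynomial {i // 0 < r (D i)} ℂ,
      (∀ z, eval z (H none) = z ⟨i₀, hi₀⟩ - x i₀) ∧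
      ∀ j z, eval z (H (some j)) = eval (ext z) (F j.1) := by
    refine ⟨fun o => o.elim (MvPolynomial.X ⟨i₀, hi₀⟩ - MvPolynomial.C (x i₀))
      (fun j => sub (F j.1)), fun z => ?_, fun j z => ?_⟩
    · beta_reduce
      rw [Option.elim_none, map_sub, eval_X, eval_C]
    · beta_reduce
      rw [Option.elim_some]
      exact hsub _ _
  obtain ⟨H, hHn, hHs⟩ := hH
  have hcard : Nat.card (Option {j // 0 < r (β j)}) < Nat.card {i // 0 < r (D i)} := by
    rw [Finite.card_option]
    exact hcon
  have hp0 : ∀ o, eval z₀ (H o) = 0 := by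
    intro o
    cases o with
    | none =>
      rw [hHn]
      exact sub_self _
    | some j =>
      rw [hHs, hz₀]
      exact hm.zero x hx j.1
  have hph : eval z₀ (sub h) ≠ 0 := by
    rw [hsub]
    change eval (ext z₀) h ≠ 0
    rw [hz₀]
    exact hxh
  have hinf := infinite_common_zero H z₀ hp0 (sub h) hph hcard
  obtain ⟨E, hE, hEz⟩ := hfin
  have hfin : (⋃ z ∈ E, {y : I → ℂ | (∀ i, r (D i) = 0 → y i = x i) ∧ y i₀ = x i₀ ∧
      SameOrbit D z y}).Finite :=
    hE.biUnion fun z _ => finite_in_orbit hm hext hi₀ hxi₀ z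
  apply hinf
  refine (hfin.preimage hinj.injOn).subset ?_
  rintro z ⟨hz, hzh⟩
  rw [hsub] at hzh
  change eval (ext z) h ≠ 0 at hzh
  have hzx : ∀ i, r (D i) = 0 → ext z i = x i := by
    intro i hi
    simp only [ext]
    rw [dif_neg (by omega)]
  have hzX : ext z ∈ X := by
    refine hop _ hzh fun j => ?_
    rcases (hβ j).lt_or_eq with h1 | h1
    · have h2 := hz (some ⟨j, h1⟩)
      rw [hHs] at h2
      exact h2
    · rw [eval_congr_of_zero hD (hm.hom j) h1.symm hzx]
      exact hm.zero x hx j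
  have hzi₀ : ext z i₀ = x i₀ := by
    have h2 := hz none
    rw [hHn] at h2
    simp only [ext]
    rw [dif_pos hi₀]
    exact sub_eq_zero.mp h2
  obtain ⟨w, hw, hwz⟩ := hEz (ext z) hzX hzx
  exact Set.mem_biUnion hw ⟨hzx, hzi₀, hwz⟩

end Pool.Agent.H24.Ab
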