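import Mathlib

/-!
# Complete intersections in toric varieties: basic definitions

`I` indexes the Cox coordinates, `M` is the class group, `D i : M` is the degree of the
coordinate `x i`.  Points are written in Cox coordinates `x : I → ℂ`; the torus
`Hom (M, ℂˣ)` acts through the degrees `D i`.
-/

set_option autoImplicit false

namespace Pool.Agent.H24.Ab

open MvPolynomial

/-- A positive multiple of the class `b` is a nonnegative integral combination of the degrees
`D i`, `i ∈ S` (that is, `b` lies in the rational cone spanned by them). -/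
def InCone {I M : Type} [AddCommGroup M] (D : I → M) (S : Set I) (b : M) : Prop :=
  ∃ m : ℕ, 1 ≤ m ∧ ∃ e : I →₀ ℕ, Finsupp.weight D e = m • b ∧ ∀ i, e i ≠ 0 → i ∈ S

/-- The common zeros of the `F j` in the `θ`-semistable locus, in Cox coordinates: a point `x` is
`θ`-semistable when some monomial whose degree is a positive multiple of `θ` does not vanish
at `x`. -/
def ConeLocus {I J M : Type} [AddCommGroup M] (D : I → M) (θ : M)
    (F : J → MvPolynomial I ℂ) : Set (I → ℂ) :=
  {x | InCone D {i | x i ≠ 0} θ ∧ ∀ j, eval x (F j) = 0}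

/-- `x` and `y` lie in the same orbit of the torus `Hom (M, ℂˣ)`. -/
def SameOrbit {I M : Type} [AddCommGroup M] (D : I → M) (x y : I → ℂ) : Prop :=
  ∃ g : Multiplicative M →* ℂˣ, ∀ i, y i = (g (Multiplicative.ofAdd (D i)) : ℂ) * x i

/-- `s` is a section of the line bundle of class `b` on the variety with Cox cone `X`: locally on
`X` it is a quotient of two homogeneous polynomials whose degrees differ by `b`. -/
def IsSection {I M : Type} [AddCommGroup M] (D : I → M) (X : Set (I → ℂ)) (b : M)
    (s : (I → ℂ) → ℂ) : Prop :=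
  ∀ x ∈ X, ∃ (p q : M) (G H : MvPolynomial I ℂ),
    IsWeightedHomogeneous D G p ∧ IsWeightedHomogeneous D H q ∧ p = q + b ∧ eval x H ≠ 0 ∧
      ∀ y ∈ X, eval y H ≠ 0 → s y = eval y G / eval y H

/-- The class `b` is semiample on `X`: every point of `X` is outside the zero set of some section
of some positive multiple of `b`. -/
def IsSemiample {I M : Type} [AddCommGroup M] (D : I → M) (X : Set (I → ℂ)) (b : M) : Prop :=
  ∀ x ∈ X, ∃ m : ℕ, 1 ≤ m ∧ ∃ s : (I → ℂ) → ℂ, IsSection D X (m • b) s ∧ s x ≠ 0

/-- `C` is a closed subvariety of the variety with Cox cone `X`: it is cut out in `X` by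
homogeneous polynomials. -/
def IsSub {I M : Type} [AddCommGroup M] (D : I → M) (X C : Set (I → ℂ)) : Prop :=
  ∃ S : Set (MvPolynomial I ℂ), (∀ P ∈ S, ∃ b : M, IsWeightedHomogeneous D P b) ∧
    C = {x | x ∈ X ∧ ∀ P ∈ S, eval x P = 0}

/-- `C` consists of finitely many torus orbits: the subvariety with cone `C` is a finite set of
points. -/
def FiniteMod {I M : Type} [AddCommGroup M] (D : I → M) (C : Set (I → ℂ)) : Prop :=
  ∃ E : Set (I → ℂ), E.Finite ∧ ∀ y ∈ C, ∃ z ∈ E, SameOrbit D z y

/-- `C` is irreducible. -/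
def IsIrred {I M : Type} [AddCommGroup M] (D : I → M) (C : Set (I → ℂ)) : Prop :=
  C.Nonempty ∧ ∀ (P Q : MvPolynomial I ℂ) (b c : M), IsWeightedHomogeneous D P b →
    IsWeightedHomogeneous D Q c → (∀ x ∈ C, eval x P * eval x Q = 0) →
      (∀ x ∈ C, eval x P = 0) ∨ (∀ x ∈ C, eval x Q = 0)

/-- `C` is an irreducible curve in the variety with Cox cone `X`: an irreducible closed
subvariety which is not finite and all of whose proper closed subvarieties are finite. -/
structure IsCurve {I M : Type} [AddCommGroup M] (D : I → M) (X C : Set (I → ℂ)) : Prop where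
  sub : IsSub D X C
  irred : IsIrred D C
  infinite : ¬ FiniteMod D C
  minimal : ∀ C' : Set (I → ℂ), IsSub D X C' → C' ⊆ C → C' ≠ C → FiniteMod D C'

/-- The line bundle of class `b` has negative degree on the irreducible curve `C`: some positive
multiple of `-b` has on `C` a nonzero section with at least one zero. -/
def NegDegree {I M : Type} [AddCommGroup M] (D : I → M) (C : Set (I → ℂ)) (b : M) : Prop :=
  ∃ m : ℕ, 1 ≤ m ∧ ∃ s : (I → ℂ) → ℂ, IsSection D C (-(m • b)) s ∧
    (∃ x ∈ C, s x ≠ 0) ∧ (∃ x ∈ C, s x = 0)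

/-- The class `b` is nef on `X`: its degree on every irreducible curve is nonnegative. -/
def IsNef {I M : Type} [AddCommGroup M] (D : I → M) (X : Set (I → ℂ)) (b : M) : Prop :=
  ∀ C : Set (I → ℂ), IsCurve D X C → ¬ NegDegree D C b

end Pool.Agent.H24.Ab
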