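import Pool.Agent.H24.Ab.Defs

/-!
# Models: the axioms which are stable under the reduction steps
-/

set_option autoImplicit false

namespace Pool.Agent.H24.Ab

open MvPolynomial

/-- Coefficient of a complex polynomial at an integer exponent (zero at negative exponents). -/
noncomputable def zc (p : Polynomial ℂ) (k : ℤ) : ℂ := if 0 ≤ k then p.coeff k.toNat else 0

/-- The vector of coefficients of `y i` at the exponents `ν (D i)`. -/
noncomputable def cv {I M : Type} [AddCommGroup M] (D : I → M) (ν : M →+ ℤ)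
    (y : I → Polynomial ℂ) : I → ℂ := fun i => zc (y i) (ν (D i))

/-- The tuple of polynomials `y` has class (at most) `ρ`. -/
def HasClass {I M : Type} [AddCommGroup M] (D : I → M) (ρ : M →+ ℤ)
    (y : I → Polynomial ℂ) : Prop := ∀ i (k : ℤ), ρ (D i) < k → zc (y i) k = 0

/-- The tuple of polynomials `y` vanishes at `0` to order (at least) `ν`. -/
def HasOrder {I M : Type} [AddCommGroup M] (D : I → M) (ν : M →+ ℤ)
    (y : I → Polynomial ℂ) : Prop := ∀ i (k : ℤ), k < ν (D i) → zc (y i) k = 0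

/-- The value of a tuple of polynomials. -/
noncomputable def evl {I : Type} (y : I → Polynomial ℂ) (t : ℂ) : I → ℂ :=
  fun i => (y i).eval t

structure Model {I J M : Type} [AddCommGroup M] (D : I → M) (θ : M)
    (β : J → M) (F : J → MvPolynomial I ℂ) (X : Set (I → ℂ)) : Prop where
  /-- the class group is finitely generated -/
  fg : Module.Finite ℤ M
  hom : ∀ j, IsWeightedHomogeneous D (F j) (β j)
  zero : ∀ x ∈ X, ∀ j, eval x (F j) = 0
  /-- `θ` is interior to the cone of `x` -/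
  inter : ∀ x ∈ X, ∀ i, x i ≠ 0 → ∃ N : ℕ, 1 ≤ N ∧ ∃ e : I →₀ ℕ,
    Finsupp.weight D e = N • θ ∧ e i ≠ 0 ∧ ∀ k, e k ≠ 0 → x k ≠ 0
  /-- `X` is open in the zero locus of the `F j` -/
  opn : ∀ x ∈ X, ∃ (p : M) (h : MvPolynomial I ℂ), IsWeightedHomogeneous D h p ∧
    eval x h ≠ 0 ∧ ∀ y, eval y h ≠ 0 → (∀ j, eval y (F j) = 0) → y ∈ X
  jac : ∀ x ∈ X, LinearIndependent ℂ (fun (j : J) (i : I) => eval x (pderiv i (F j)))
  gen : ∀ x ∈ X, AddSubgroup.closure (D '' {i | x i ≠ 0}) = ⊤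
  irr : ∀ (P Q : MvPolynomial I ℂ) (b c : M), IsWeightedHomogeneous D P b →
    IsWeightedHomogeneous D Q c → (∀ x ∈ X, eval x P * eval x Q = 0) →
      (∀ x ∈ X, eval x P = 0) ∨ (∀ x ∈ X, eval x Q = 0)
  /-- valuative completeness -/
  val : ∀ y : I → Polynomial ℂ, (∀ j, aeval y (F j) = 0) → (∃ t₀, evl y t₀ ∈ X) →
    ∃ ν : M →+ ℤ, HasOrder D ν y ∧ cv D ν y ∈ X

/-- `b` lies in the cone of every point of `X`. -/
def ConeAll {I M : Type} [AddCommGroup M] (D : I → M) (X : Set (I → ℂ)) (b : M) : Prop :=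
  ∀ x ∈ X, InCone D {i | x i ≠ 0} b

/-- `ν` is nonnegative on the cone of `x`. -/
def NonnegAt {I M : Type} [AddCommGroup M] (D : I → M) (x : I → ℂ) (ν : M →+ ℤ) : Prop :=
  ∀ i, x i ≠ 0 → 0 ≤ ν (D i)

/-- `r` is indecomposable at `x`. -/
def Indec {I M : Type} [AddCommGroup M] (D : I → M) (x : I → ℂ) (r : M →+ ℤ) : Prop :=
  ∀ ν₁ ν₂ : M →+ ℤ, NonnegAt D x ν₁ → NonnegAt D x ν₂ → ν₁ + ν₂ = r → ν₁ = 0 ∨ ν₂ = 0

/-- `r` spans the annihilator of the degrees `D i`, `x i ≠ 0`, `r (D i) = 0`. -/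
def Extremal {I M : Type} [AddCommGroup M] (D : I → M) (x : I → ℂ) (r : M →+ ℤ) : Prop :=
  ∀ ν : M →+ ℤ, (∀ i, x i ≠ 0 → r (D i) = 0 → ν (D i) = 0) → ∃ k : ℤ, ν = k • r

end Pool.Agent.H24.Ab
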